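import Mathlib

namespace Pool.Agent.Results.MP_b20271_lc.Q1

/-- `𝓐` is a partition of `W`: non-empty, pairwise disjoint sets covering `W`. -/
def IsPartition {W : Type} (𝓐 : Set (Set W)) : Prop :=
  (∀ U ∈ 𝓐, U.Nonempty) ∧ (∀ U ∈ 𝓐, ∀ V ∈ 𝓐, U ≠ V → Disjoint U V) ∧ ⋃₀ 𝓐 = Set.univ

/-- Every member of `𝓐` is a union of members of `𝓑`. -/
def Refines {W : Type} (𝓑 𝓐 : Set (Set W)) : Prop :=
  ∀ U ∈ 𝓐, ∃ 𝓒 ⊆ 𝓑, U = ⋃₀ 𝓒

def Tuned {W : Type} (R : W → W → Prop) (𝓐 : Set (Set W)) : Prop :=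
  ∀ U ∈ 𝓐, ∀ V ∈ 𝓐, (∃ u ∈ U, ∃ v ∈ V, R u v) → ∀ u ∈ U, ∃ v ∈ V, R u v

def Tunable {W : Type} (R : W → W → Prop) : Prop :=
  ∀ 𝓐 : Set (Set W), IsPartition 𝓐 → 𝓐.Finite →
    ∃ 𝓑 : Set (Set W), IsPartition 𝓑 ∧ 𝓑.Finite ∧ Refines 𝓑 𝓐 ∧ Tuned R 𝓑

/-- The direct product of two frames. -/
def Prod' {W₁ W₂ : Type} (R₁ : W₁ → W₁ → Prop) (R₂ : W₂ → W₂ → Prop) :
    W₁ × W₂ → W₁ × W₂ → Prop :=
  fun x y => R₁ x.1 y.1 ∧ R₂ x.2 y.2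

lemma part_eq {W : Type} {𝓐 : Set (Set W)} (h : IsPartition 𝓐) {U V : Set W} (hU : U ∈ 𝓐)
    (hV : V ∈ 𝓐) {x : W} (hx : x ∈ U) (hx' : x ∈ V) : U = V := by
  by_contra hc
  exact Set.disjoint_left.1 (h.2.1 U hU V hV hc) hx hx'

lemma part_ex {W : Type} {𝓐 : Set (Set W)} (h : IsPartition 𝓐) (x : W) : ∃ U ∈ 𝓐, x ∈ U := by
  have : x ∈ ⋃₀ 𝓐 := h.2.2 ▸ Set.mem_univ x
  exact this

lemma tunable_eq : Tunable (fun x y : ℕ => x = y) := by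
  intro 𝓐 h hf
  refine ⟨𝓐, h, hf, fun U hU => ⟨{U}, by simpa, by simp⟩, ?_⟩
  rintro U hU V hV ⟨u, hu, v, hv, rfl⟩ w hw
  exact ⟨w, part_eq h hU hV hu hv ▸ hw, rfl⟩

lemma tunable_le : Tunable (fun x y : ℕ => x ≤ y) := by
  intro 𝓐 h hf
  obtain ⟨N, hN⟩ : ∃ N, ∀ U ∈ 𝓐, U.Finite → ∀ x ∈ U, x < N := by
    have : (⋃ U ∈ {U ∈ 𝓐 | U.Finite}, U).Finite :=
      (hf.subset (Set.sep_subset _ _)).biUnion (fun U hU => hU.2)
    obtain ⟨N, hN⟩ := this.bddAbove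
    exact ⟨N + 1, fun U hU hU' x hx =>
      Nat.lt_succ_of_le (hN (Set.mem_biUnion (show U ∈ {U ∈ 𝓐 | U.Finite} from ⟨hU, hU'⟩) hx))⟩
  let 𝓑 : Set (Set ℕ) := ((fun i => ({i} : Set ℕ)) '' Set.Iio N) ∪
    ((fun U => U ∩ Set.Ici N) '' {U ∈ 𝓐 | U.Infinite})
  have big : ∀ U : Set ℕ, U.Infinite → ∀ n, ∃ x ∈ U ∩ Set.Ici N, n ≤ x := by
    intro U hU n
    obtain ⟨x, hx, hx'⟩ := hU.exists_gt (n + N)
    exact ⟨x, ⟨hx, by simp only [Set.mem_Ici]; omega⟩, by omega⟩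
  refine ⟨𝓑, ⟨?_, ?_, ?_⟩, ?_, ?_, ?_⟩
  · rintro _ (⟨i, _, rfl⟩ | ⟨U, hU, rfl⟩)
    · simp
    · obtain ⟨x, hx, -⟩ := big U hU.2 0
      exact ⟨x, hx⟩
  · rintro _ (⟨i, hi, rfl⟩ | ⟨U, hU, rfl⟩) _ (⟨j, hj, rfl⟩ | ⟨V, hV, rfl⟩) hne
    · simpa using hne
    · simp only [Set.disjoint_singleton_left]
      exact fun hh => absurd hh.2 (by simpa using hi)
    · simp only [Set.disjoint_singleton_right]
      exact fun hh => absurd hh.2 (by simpa using hj)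
    · exact Set.disjoint_left.2 fun x hx hx' =>
        hne (by rw [part_eq h hU.1 hV.1 hx.1 hx'.1])
  · refine Set.eq_univ_of_forall fun x => ?_
    by_cases hx : x < N
    · exact ⟨{x}, Or.inl ⟨x, hx, rfl⟩, rfl⟩
    · obtain ⟨U, hU, hxU⟩ := part_ex h x
      exact ⟨_, Or.inr ⟨U, ⟨hU, fun hf => hx (hN U hU hf x hxU)⟩, rfl⟩, hxU, not_lt.1 hx⟩
  · exact ((Set.finite_Iio N).image _).union ((hf.subset (Set.sep_subset _ _)).image _)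
  · intro U hU
    refine ⟨{B ∈ 𝓑 | B ⊆ U}, Set.sep_subset _ _, Set.Subset.antisymm (fun x hxU => ?_) ?_⟩
    · by_cases hx : x < N
      · exact ⟨{x}, ⟨Or.inl ⟨x, hx, rfl⟩, by simpa⟩, rfl⟩
      · exact ⟨_, ⟨Or.inr ⟨U, ⟨hU, fun hf => hx (hN U hU hf x hxU)⟩, rfl⟩,
          Set.inter_subset_left⟩, hxU, not_lt.1 hx⟩
    · rintro x ⟨B, hB, hx⟩
      exact hB.2 hx
  · rintro _ (⟨i, hi, rfl⟩ | ⟨U, hU, rfl⟩) V hV ⟨u, hu, v, hv, huv⟩ w hw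
    · exact ⟨v, hv, by simp only [Set.mem_singleton_iff] at hu hw; omega⟩
    · rcases hV with ⟨j, hj, rfl⟩ | ⟨V, hV, rfl⟩
      · have h1 : N ≤ u := hu.2
        have h2 : j < N := hj
        simp only [Set.mem_singleton_iff] at hv
        omega
      · exact big V hV.2 w

theorem result : ∃ (W₁ W₂ : Type) (R₁ : W₁ → W₁ → Prop) (R₂ : W₂ → W₂ → Prop),
    Tunable R₁ ∧ Tunable R₂ ∧ ¬ Tunable (Prod' R₁ R₂) := by
  refine ⟨ℕ, ℕ, fun x y => x ≤ y, fun x y => x = y, tunable_le, tunable_eq, fun h => ?_⟩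
  let A : Set (ℕ × ℕ) := {p | p.1 ≤ p.2 ∧ (p.2 - p.1) % 2 = 0}
  have hp : IsPartition ({A, Aᶜ} : Set (Set (ℕ × ℕ))) := by
    refine ⟨?_, ?_, by simp⟩
    · rintro U (rfl | rfl)
      · exact ⟨(0, 0), by simp [A]⟩
      · exact ⟨(0, 1), by simp [A]⟩
    · rintro U (rfl | rfl) V (rfl | rfl) hne
      · exact absurd rfl hne
      · exact disjoint_compl_right
      · exact disjoint_compl_left
      · exact absurd rfl hne
  obtain ⟨𝓑, hB, hf, hr, ht⟩ := h {A, Aᶜ} hp (by simp)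
  · have sat : ∀ U ∈ 𝓑, ∀ x ∈ U, ∀ y ∈ U, (x ∈ A ↔ y ∈ A) := by
      have : ∀ U ∈ 𝓑, ∀ x ∈ U, ∀ y ∈ U, x ∈ A → y ∈ A := by
        intro U hU x hx y hy hxA
        obtain ⟨C, hC, hA⟩ := hr A (by simp)
        rw [hA] at hxA ⊢
        obtain ⟨V, hV, hxV⟩ := hxA
        exact ⟨V, hV, part_eq hB hU (hC hV) hx hxV ▸ hy⟩
      exact fun U hU x hx y hy => ⟨this U hU x hx y hy, this U hU y hy x hx⟩
    have key : ∀ j : ℕ, ∀ U ∈ 𝓑, ∀ x ∈ U, ∀ y ∈ U, x.1 + j ≤ x.2 → y.1 + j ≤ y.2 := by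
      intro j
      induction j with
      | zero =>
        intro U hU x hx y hy hxy
        obtain ⟨V, hV, hv⟩ := part_ex hB (x.2, x.2)
        obtain ⟨v, hv', h1, h2⟩ := ht U hU V hV ⟨x, hx, _, hv, by simpa using hxy, rfl⟩ y hy
        have := (sat V hV _ hv _ hv').1 (by simp [A])
        have := this.1
        omega
      | succ j ih =>
        intro U hU x hx y hy hxy
        obtain ⟨V, hV, hv⟩ := part_ex hB (x.2 - (j + 1), x.2)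
        obtain ⟨v, hv', h1, h2⟩ := ht U hU V hV
          ⟨x, hx, _, hv, by show x.1 ≤ x.2 - (j + 1); omega, rfl⟩ y hy
        have h3 := sat V hV _ hv _ hv'
        have h4 := ih V hV _ hv _ hv' (by show x.2 - (j + 1) + j ≤ x.2; omega)
        simp only [A, Set.mem_ofPred_eq] at h3
        omega
    choose f hf1 hf2 using fun n : ℕ => part_ex hB ((0, n) : ℕ × ℕ)
    obtain ⟨m, n, hmn, he⟩ := hf.exists_lt_map_eq_of_forall_mem hf1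
    have := key n (f n) (hf1 n) _ (hf2 n) _ (he ▸ hf2 m) (by simp)
    simp at this
    omega

end Pool.Agent.Results.MP_b20271_lc.Q1
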